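import Pool.Agent.KS6_56.TI.Pair

/-!
# MP_c28122_co: finite abelian groups whose largest `t`-independent set has size one

`Two b s` is the explicit arithmetic condition for the existence of a two-element `s`-independent
set in `ℤ/b` (`s ≥ 2`): `b ≥ s²/2 + s + 1` for `s` even; for `s` odd `b ≥ (s+1)²/2`, and moreover
`b > s²/2 + s + (s+1)/2`, or `b` is even and not divisible by four if `s ≡ 1 mod 4`.

Idea. The relations between two elements of an abelian group form a sublattice `L` of `ℤ²`, and the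
pair is `t`-independent if every non-zero vector of `L` has `ℓ¹`-norm larger than `t`. If `a` is the
largest integer with `L ⊆ a ℤ²`, then `L = a L'`, where `ℤ²/L'` is cyclic of some order `b`, and
`ℤ²/L` is isomorphic to `ℤ/a × ℤ/(a b)`; the condition becomes that the non-zero vectors of `L'` have
norm larger than `t / a`, a condition on the cyclic group `ℤ/b`. Conversely the extremal pairs in
cyclic groups consist of coprime integers, hence they lift to every copy of `ℤ/a × ℤ/(a b)`.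
-/

set_option autoImplicit false

namespace Pool.Agent.Results.MP_c28122_co.AbelianGroups

open Pool.Agent.KS6_56.TI

/-- The largest size of a `t`-independent subset of the group `G` equals `1`, that is,
`τ_±(G, [1, t]) = 1`. -/
def TauOne (G : Type) [AddCommGroup G] (t : ℕ) : Prop :=
  IsGreatest {m : ℕ | ∃ A : Finset G, Indep t A ∧ A.card = m} 1

theorem tauOne_iff {G : Type} [AddCommGroup G] [Finite G] {t : ℕ} (ht : 2 ≤ t) :
    TauOne G t ↔ t + 1 ≤ AddMonoid.exponent G ∧ ¬ ∃ x y : G, P2 t x y := by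
  constructor
  · intro h
    refine ⟨single.1 h.1, ?_⟩
    rintro ⟨x, y, hxy⟩
    have := h.2 (unpair ht hxy)
    omega
  · rintro ⟨h1, h2⟩
    refine ⟨single.2 h1, ?_⟩
    rintro m ⟨A, hA, rfl⟩
    by_contra hc
    exact h2 (pair hA (by omega))

/-- **Main theorem.**

(1) Let `G` be a finite abelian group and `t ≥ 2`. Then `τ_±(G, [1, t]) = 1` if and only if the
exponent of `G` is larger than `t` and for all `a, b ≥ 1` such that `G` contains a copy of
`ℤ/a × ℤ/(a b)` the condition `Two b (t / a)` does not hold (`t / a` is rounded down).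

(2) For all `t ≥ 2` and `n ≥ 1`: `τ_±(ℤ/n, [1, t]) = 1` if and only if `n > t` and `Two n t` does
not hold.

(3) (The question.) For odd `t ≥ 3` and `n ≥ 1`: `τ_±(ℤ/n, [1, t]) = 1` if and only if
`t + 1 ≤ n ≤ b_t`, or `b_t + 2 ≤ n ≤ b_t + (t + 1) / 2` and `n` is odd, or divisible by four with
`t ≡ 1 mod 4`; here `b_t = ⌊t²/2⌋ + t`. -/
theorem result :
    (∀ (G : Type) [AddCommGroup G] [Finite G] (t : ℕ), 2 ≤ t →
      (TauOne G t ↔ t + 1 ≤ AddMonoid.exponent G ∧
        ∀ a b : ℕ, 1 ≤ a → 1 ≤ b → Contains G a b → ¬ Two b (t / a))) ∧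
    (∀ t n : ℕ, 2 ≤ t → 0 < n → (TauOne (ZMod n) t ↔ t + 1 ≤ n ∧ ¬ Two n t)) ∧
    (∀ t n : ℕ, 3 ≤ t → Odd t → 0 < n →
      (TauOne (ZMod n) t ↔ (t + 1 ≤ n ∧ n ≤ t ^ 2 / 2 + t) ∨
        (t ^ 2 / 2 + t + 2 ≤ n ∧ n ≤ t ^ 2 / 2 + t + (t + 1) / 2 ∧
          (n % 2 = 1 ∨ (t % 4 = 1 ∧ n % 4 = 0))))) := by
  have h2 : ∀ t n : ℕ, 2 ≤ t → 0 < n → (TauOne (ZMod n) t ↔ t + 1 ≤ n ∧ ¬ Two n t) := by
    intro t n ht hn
    have : NeZero n := ⟨hn.ne'⟩
    rw [tauOne_iff ht, ZMod.exponent]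
    refine and_congr Iff.rfl (not_congr ?_)
    constructor
    · rintro ⟨x, y, h⟩
      exact two_of_P2 hn h
    · intro h
      obtain ⟨p, q, _, H⟩ := exC_of_two h
      exact ⟨_, _, mk p q H⟩
  refine ⟨?_, h2, ?_⟩
  · intro G _ _ t ht
    rw [tauOne_iff ht, pair_iff]
    refine and_congr Iff.rfl ?_
    constructor
    · intro h a b ha hb hc ht
      exact h ⟨a, b, ha, hb, hc, ht⟩
    · rintro h ⟨a, b, ha, hb, hc, ht⟩
      exact h a b ha hb hc ht
  · intro t n ht hodd hn
    rw [h2 t n (by omega) hn]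
    obtain ⟨s, hs⟩ : ∃ s, t = 2 * s + 1 := hodd
    have hsq : (t + 1) ^ 2 / 2 = t ^ 2 / 2 + t + 1 := by
      have h3 : t ^ 2 = 2 * (2 * s * s + 2 * s) + 1 := by rw [hs]; ring
      have h4 : (t + 1) ^ 2 = t ^ 2 + 2 * t + 1 := by ring
      rw [h4]
      omega
    have hpar : t % 4 = 1 → (t ^ 2 / 2 + t + 1) % 4 = 2 := by
      intro h5
      obtain ⟨r, rfl⟩ : ∃ r, s = 2 * r := ⟨s / 2, by omega⟩
      have h3 : t ^ 2 = 2 * (4 * (2 * r * r + r)) + 1 := by rw [hs]; ring
      omega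
    have hpar2 : (t ^ 2 / 2 + t + 1) % 2 = 0 := by
      have h3 : t ^ 2 = 2 * (2 * (s * s + s)) + 1 := by rw [hs]; ring
      omega
    unfold Two
    rw [hsq]
    omega

end Pool.Agent.Results.MP_c28122_co.AbelianGroups
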